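import Pool.Agent.H743.X17.IsoStm
import Pool.Agent.H743.X17.TAM2

/-!
# I17 ITD0: Tamagawa number at 2, j = 0
-/

set_option autoImplicit false

open scoped Classical

namespace Pool.Agent.H286.I17

open Pool.Agent.H743.X17
open Pool.Agent.H743.X17.QTAM2
open Pool.Agent.Y700 (PtP SingRed E0 tam)
open WeierstrassCurve

/-- the curve -/
abbrev F (m : ℤ) : WeierstrassCurve ℤ := ⟨0, 33 * m, 0, 352 * m ^ 2, 320 * m ^ 3⟩

/-- the curve over `ℚ₂` -/
noncomputable abbrev EF (m : ℤ) : WeierstrassCurve ℚ_[2] := (F m).map (Int.castRingHom ℚ_[2])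

section

variable {m : ℤ}

theorem EF1 : (EF m).a₁ = 0 := by
  show ((0 : ℤ) : ℚ_[2]) = 0
  simp

theorem EF2 : (EF m).a₂ = 33 * m := by
  show ((33 * m : ℤ) : ℚ_[2]) = _
  push_cast; ring

theorem EF3 : (EF m).a₃ = 0 := by
  show ((0 : ℤ) : ℚ_[2]) = 0
  simp

theorem EF4 : (EF m).a₄ = 352 * m ^ 2 := by
  show ((352 * m ^ 2 : ℤ) : ℚ_[2]) = _
  push_cast; ring

theorem EF6 : (EF m).a₆ = 320 * m ^ 3 := by
  show ((320 * m ^ 3 : ℤ) : ℚ_[2]) = _
  push_cast; ring

theorem eqF {x y : ℚ_[2]} : (EF m).toAffine.Equation x y ↔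
    y ^ 2 = (x + m) * (x ^ 2 + 32 * m * x + 320 * m ^ 2) := by
  rw [Affine.equation_iff, EF1, EF2, EF3, EF4, EF6]
  constructor
  · intro h; linear_combination h
  · intro h; linear_combination h

theorem n3 : ‖(3 : ℚ_[2])‖ = 1 := by
  have e : (3 : ℚ_[2]) = 1 + 2 := by norm_num
  rw [e, nadd, norm_one]
  rw [n2, norm_one]
  norm_num

theorem n32 : ‖(32 : ℚ_[2])‖ = 1 / 32 := by
  have : (32 : ℚ_[2]) = 2 ^ 5 := by norm_num
  rw [this, norm_pow, n2]
  norm_num

theorem n5 : ‖(5 : ℚ_[2])‖ = 1 := by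
  have e : (5 : ℚ_[2]) = 1 + 4 := by norm_num
  rw [e, nadd, norm_one]
  rw [n4, norm_one]
  norm_num

theorem n320 : ‖(320 : ℚ_[2])‖ = 1 / 64 := by
  have : (320 : ℚ_[2]) = 2 ^ 6 * 5 := by norm_num
  rw [this, norm_mul, norm_pow, n2, n5]
  norm_num

theorem n66 : ‖(66 : ℚ_[2])‖ ≤ 1 / 2 := by
  have : (66 : ℚ_[2]) = 2 * ((33 : ℤ) : ℚ_[2]) := by push_cast; norm_num
  rw [this, norm_mul, n2]
  exact (mul_le_mul_of_nonneg_left (nm_le 33) (by norm_num)).trans (by norm_num)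

theorem n352 : ‖(352 : ℚ_[2])‖ ≤ 1 / 2 := by
  have : (352 : ℚ_[2]) = 2 * ((176 : ℤ) : ℚ_[2]) := by push_cast; norm_num
  rw [this, norm_mul, n2]
  exact (mul_le_mul_of_nonneg_left (nm_le 176) (by norm_num)).trans (by norm_num)

theorem n289 : ‖(289 : ℚ_[2])‖ = 1 := by
  have e : (289 : ℚ_[2]) = 1 + 2 * ((144 : ℤ) : ℚ_[2]) := by push_cast; norm_num
  rw [e, nadd, norm_one]
  rw [norm_one, norm_mul, n2]
  exact (mul_le_mul_of_nonneg_left (nm_le 144) (by norm_num)).trans_lt (by norm_num)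

/-- `P ∈ E⁰` if and only if `|x| ≥ 1` -/
theorem memF {x y : ℚ_[2]} (hn : (EF m).toAffine.Nonsingular x y) :
    (Affine.Point.some x y hn : PtP (F m) 2) ∈ E0 (F m) 2 ↔ 1 ≤ ‖x‖ := by
  rw [Pool.Agent.Y809.BSD14.t_E0]
  have e1 : ∀ x y : ℚ_[2], SingRed (F m) 2 x y ↔ (‖x‖ ≤ 1 ∧ ‖y‖ ≤ 1 ∧
      ‖3 * x ^ 2 + 66 * m * x + 352 * m ^ 2‖ < 1 ∧ ‖2 * y‖ < 1) := by
    intro x y
    unfold SingRed
    simp only
    push_cast
    have e2 : (0 : ℚ_[2]) * y - (3 * x ^ 2 + 2 * (33 * m) * x + 352 * m ^ 2) =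
        -(3 * x ^ 2 + 66 * m * x + 352 * m ^ 2) := by ring
    have e3 : (2 : ℚ_[2]) * y + 0 * x + 0 = 2 * y := by ring
    rw [e2, e3, norm_neg]
  have hm1 := nm_le m
  have hm0 := norm_nonneg (m : ℚ_[2])
  have h352 : ‖(352 : ℚ_[2]) * m ^ 2‖ ≤ 1 / 2 := by
    rw [norm_mul, norm_pow]
    calc ‖(352 : ℚ_[2])‖ * ‖(m : ℚ_[2])‖ ^ 2 ≤ 1 / 2 * 1 ^ 2 := by gcongr; exact n352
      _ = 1 / 2 := by norm_num
  constructor
  · intro h
    by_contra hc
    have hx := not_le.1 hc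
    have hx0 := norm_nonneg x
    apply h x y hn rfl
    rw [e1]
    have he := eqF.1 hn.1
    have hy : ‖y‖ ≤ 1 := by
      have h5 : ‖y‖ ^ 2 ≤ 1 := by
        rw [← norm_pow, he, norm_mul]
        have h6 : ‖x + m‖ ≤ 1 := nle hx.le hm1
        have h7 : ‖x ^ 2 + 32 * m * x + 320 * m ^ 2‖ ≤ 1 := by
          refine nle (nle ?_ ?_) ?_
          · rw [norm_pow]; exact pow_le_one₀ hx0 hx.le
          · rw [norm_mul, norm_mul, n32]
            calc 1 / 32 * ‖(m : ℚ_[2])‖ * ‖x‖ ≤ 1 / 32 * 1 * 1 := by gcongr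
              _ ≤ 1 := by norm_num
          · rw [norm_mul, norm_pow, n320]
            calc 1 / 64 * ‖(m : ℚ_[2])‖ ^ 2 ≤ 1 / 64 * 1 ^ 2 := by gcongr
              _ ≤ 1 := by norm_num
        calc ‖x + m‖ * ‖x ^ 2 + 32 * m * x + 320 * m ^ 2‖ ≤ 1 * 1 := by gcongr
          _ = 1 := by norm_num
      nlinarith [norm_nonneg y]
    refine ⟨hx.le, hy, ?_, ?_⟩
    · have g1 : ‖3 * x ^ 2‖ < 1 := by
        rw [norm_mul, norm_pow, n3]
        nlinarith
      have g2 : ‖66 * m * x‖ < 1 := by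
        rw [norm_mul, norm_mul]
        calc ‖(66 : ℚ_[2])‖ * ‖(m : ℚ_[2])‖ * ‖x‖ ≤ 1 / 2 * 1 * 1 := by gcongr; exact n66
          _ < 1 := by norm_num
      have g3 : ‖(352 : ℚ_[2]) * m ^ 2‖ < 1 := by linarith
      refine (IsUltrametricDist.norm_add_le_max _ _).trans_lt (max_lt ?_ g3)
      exact (IsUltrametricDist.norm_add_le_max _ _).trans_lt (max_lt g1 g2)
    · rw [norm_mul, n2]
      linarith
  · intro h x' y' hn' he
    obtain ⟨rfl, rfl⟩ : x = x' ∧ y = y' := by simpa using he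
    rw [e1]
    rintro ⟨h1, h2, h4, h5⟩
    have hx : ‖x‖ = 1 := le_antisymm h1 h
    have h6 : ‖3 * x ^ 2 + 66 * m * x + 352 * m ^ 2‖ = 1 := by
      have g1 : ‖3 * x ^ 2‖ = 1 := by
        rw [norm_mul, norm_pow, n3, hx]
        norm_num
      have g2 : ‖66 * m * x‖ < 1 := by
        rw [norm_mul, norm_mul, hx]
        calc ‖(66 : ℚ_[2])‖ * ‖(m : ℚ_[2])‖ * 1 ≤ 1 / 2 * 1 * 1 := by gcongr; exact n66
          _ < 1 := by norm_num
      have g3 : ‖(352 : ℚ_[2]) * m ^ 2‖ < 1 := by linarith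
      have g4 : ‖3 * x ^ 2 + 66 * m * x‖ = 1 := by rw [nadd, g1]; rwa [g1]
      rw [nadd, g4]
      rwa [g4]
    rw [h6] at h4
    exact lt_irrefl _ h4

theorem negYF (x y : ℚ_[2]) : (EF m).toAffine.negY x y = -y := by
  show -y - (EF m).a₁ * x - (EF m).a₃ = -y
  rw [EF1, EF3]; ring

/-- points are non-singular -/
theorem nsF (hm : m ≠ 0) {x y : ℚ_[2]}
    (h : y ^ 2 = (x + m) * (x ^ 2 + 32 * m * x + 320 * m ^ 2)) :
    (EF m).toAffine.Nonsingular x y := by
  have hmQ : (m : ℚ_[2]) ≠ 0 := by exact_mod_cast hm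
  rw [Affine.nonsingular_iff]
  refine ⟨eqF.2 h, ?_⟩
  rw [EF1, EF2, EF3, EF4]
  by_contra hc
  rw [not_or, not_not, not_not] at hc
  obtain ⟨h1, h2⟩ := hc
  have hy : y = 0 := by
    have : (2 : ℚ_[2]) * y = 0 := by linear_combination h2
    exact (mul_eq_zero.1 this).resolve_left two_ne_zero
  subst hy
  have h3 : 3 * x ^ 2 + 66 * m * x + 352 * m ^ 2 = 0 := by linear_combination -h1
  have h4 : (x + m) * (x ^ 2 + 32 * m * x + 320 * (m : ℚ_[2]) ^ 2) = 0 := by rw [← h]; ring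
  rcases mul_eq_zero.1 h4 with h5 | h5
  · have h6 : (289 : ℚ_[2]) * (m : ℚ_[2]) ^ 2 = 0 := by
      linear_combination h3 - (3 * x + 63 * m) * h5
    rcases mul_eq_zero.1 h6 with h7 | h7
    · norm_num at h7
    · exact hmQ (pow_eq_zero_iff two_ne_zero |>.1 h7)
  · have h6 : (x + m) * (2 * (x + 16 * m)) = 0 := by linear_combination h3 - h5
    rcases mul_eq_zero.1 h6 with h7 | h7
    · have h8 : (289 : ℚ_[2]) * (m : ℚ_[2]) ^ 2 = 0 := by
        linear_combination h5 - (x + 31 * m) * h7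
      rcases mul_eq_zero.1 h8 with h9 | h9
      · norm_num at h9
      · exact hmQ (pow_eq_zero_iff two_ne_zero |>.1 h9)
    · have h8 : (64 : ℚ_[2]) * (m : ℚ_[2]) ^ 2 = 0 := by
        have : x + 16 * m = 0 := (mul_eq_zero.1 h7).resolve_left two_ne_zero
        linear_combination h5 - (x + 16 * m) * this
      rcases mul_eq_zero.1 h8 with h9 | h9
      · norm_num at h9
      · exact hmQ (pow_eq_zero_iff two_ne_zero |>.1 h9)

/-- the sum of two points -/
theorem sumF {x y x' y' : ℚ_[2]} (hn : (EF m).toAffine.Nonsingular x y)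
    (hn' : (EF m).toAffine.Nonsingular x' y') :
    (Affine.Point.some x y hn : (EF m).toAffine.Point) + .some x' y' hn' = 0 ∨
    ∃ (l c X Y : ℚ_[2]) (hN : (EF m).toAffine.Nonsingular X Y),
      (Affine.Point.some x y hn : (EF m).toAffine.Point) + .some x' y' hn' = .some X Y hN ∧
      l = (EF m).toAffine.slope x x' y y' ∧ y = l * x + c ∧ y' = l * x' + c ∧
      x + x' + X = l ^ 2 - 33 * m ∧
      x * x' * X = c ^ 2 - 320 * m ^ 3 ∧ (x + m) * (x' + m) * (X + m) = (c - l * m) ^ 2 := by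
  by_cases hxy : x = x' ∧ y = (EF m).toAffine.negY x' y'
  · left
    exact Affine.Point.add_of_Y_eq hxy.1 hxy.2
  · right
    obtain ⟨r1, r2, r3⟩ := Pool.Agent.Y809.BSD14.line_rel hn.1 hn'.1 hxy
    rw [EF1, EF2] at r2
    rw [EF1, EF3, EF4] at r3
    set l := (EF m).toAffine.slope x x' y y' with hl
    set X := (EF m).toAffine.addX x x' l with hX
    have he := eqF.1 hn.1
    have r4 : x * x' * X = (y - l * x) ^ 2 - 320 * m ^ 3 := by
      linear_combination (-x ^ 2) * r2 + x * r3 - he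
    refine ⟨l, y - l * x, X, _, _, Affine.Point.add_some hxy, rfl, by ring, r1, ?_, r4, ?_⟩
    · rw [r2]; ring
    · linear_combination r4 + m * r3 + m ^ 2 * r2

/-- adding the point of order two -/
theorem addT (g : (EF m).toAffine.Nonsingular (-m) 0) {x y : ℚ_[2]}
    (hn : (EF m).toAffine.Nonsingular x y) (hx : x + m ≠ 0) :
    ∃ (X Y : ℚ_[2]) (hN : (EF m).toAffine.Nonsingular X Y),
      (Affine.Point.some x y hn : (EF m).toAffine.Point) + .some (-m) 0 g = .some X Y hN ∧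
      (X + m) * (x + m) = 289 * m ^ 2 := by
  have he := eqF.1 hn.1
  rcases sumF hn g with h | ⟨l, c, X, Y, hN, h1, -, h3, h4, h5, -, -⟩
  · exfalso
    apply hx
    have h2 := eq_neg_of_add_eq_zero_left h
    rw [Affine.Point.neg_some] at h2
    have h3 : x = -m := by
      have := (Affine.Point.some.inj h2).1
      exact this
    rw [h3]; ring
  · refine ⟨X, Y, hN, h1, ?_⟩
    have h6 : y = l * (x + m) := by linear_combination h3 - h4
    have h7 : (x + m) * (l ^ 2 * (x + m) - (x ^ 2 + 32 * m * x + 320 * m ^ 2)) = 0 := by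
      rw [h6] at he
      linear_combination he
    have h8 := (mul_eq_zero.1 h7).resolve_left hx
    linear_combination (x + m) * h5 + h8

end

/-! ### the index two -/

theorem index_two {G : Type} [AddCommGroup G] (H : AddSubgroup G) (A : G) (nA : A ∉ H)
    (h : ∀ P Q, P ∉ H → Q ∉ H → P + Q ∈ H) : H.index = 2 := by
  refine index_of' H ![0, A] ?_ ?_ ?_
  · intro i
    fin_cases i
    · simp
    · simpa using h A A nA nA
  · intro P
    by_cases hP : P ∈ H
    · exact ⟨0, by simpa using hP⟩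
    · exact ⟨1, by simpa using h P A hP nA⟩
  · intro i j
    fin_cases i <;> fin_cases j <;> intro h
    · rfl
    · exact absurd (by simpa using h) nA
    · exact absurd (by simpa using h) nA
    · rfl

theorem dvd_of {k : ℤ} (n : ℕ) (h : ‖(k : ℚ_[2])‖ ≤ (1 / 2) ^ n) : (2 : ℤ) ^ n ∣ k := by
  have h1 := (Padic.norm_int_le_pow_iff_dvd (p := 2) k n).1 (by simpa using h)
  exact_mod_cast h1

/-! ### `m` even -/

section even

variable {m : ℤ}

theorem norm_even (hm : m % 4 = 2) : ‖(m : ℚ_[2])‖ = 1 / 2 := by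
  obtain ⟨k, rfl⟩ : ∃ k : ℤ, m = 2 * k := ⟨m / 2, by omega⟩
  have hk : ‖(k : ℚ_[2])‖ = 1 := by
    by_contra h5
    have h6 : ‖(k : ℚ_[2])‖ < 1 := lt_of_le_of_ne (nm_le k) h5
    have h7 := (Padic.norm_intCast_lt_one_iff (p := 2) (k := k)).1 h6
    push_cast at h7
    omega
  push_cast
  rw [norm_mul, hk, n2, mul_one]

theorem n8 : ‖(8 : ℚ_[2])‖ = 1 / 8 := by
  have : (8 : ℚ_[2]) = 2 ^ 3 := by norm_num
  rw [this, norm_pow, n2]; norm_num

/-- the points with singular reduction -/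
theorem clsE (hm : m % 4 = 2) {x y : ℚ_[2]}
    (he : y ^ 2 = (x + m) * (x ^ 2 + 32 * m * x + 320 * m ^ 2)) (hx : ‖x‖ < 1) :
    ‖x‖ = 1 / 2 ∨ (‖x‖ = 1 / 16 ∧ m % 8 = 2) := by
  have hmn := norm_even hm
  have hy2 : ‖y‖ ^ 2 = ‖x + m‖ * ‖x ^ 2 + (32 * m * x + 320 * m ^ 2)‖ := by
    rw [← norm_pow, he, norm_mul, add_assoc (x ^ 2)]
  have h320 : ‖320 * (m : ℚ_[2]) ^ 2‖ = 1 / 256 := by
    rw [norm_mul, norm_pow, n320, hmn]; norm_num
  have h32 : ‖32 * (m : ℚ_[2]) * x‖ = 1 / 64 * ‖x‖ := by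
    rw [norm_mul, norm_mul, n32, hmn]; ring
  have hx2 : ‖x ^ 2‖ = ‖x‖ ^ 2 := norm_pow _ _
  rcases cases5 hx with h | h | h | h | h | h
  · exact Or.inl h
  · exfalso
    have h1 : ‖x + m‖ = 1 / 2 := by rw [add_comm, nadd, hmn]; rw [h, hmn]; norm_num
    have h2 : ‖x ^ 2 + (32 * m * x + 320 * m ^ 2)‖ = 1 / 16 := by
      rw [nadd, hx2, h]; · norm_num
      rw [hx2, h]
      refine lt_of_le_of_lt (nle (c := 1 / 256) ?_ h320.le) (by norm_num)
      rw [h32, h]; norm_num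
    rw [h1, h2] at hy2
    apply odd_val (y := y) 2
    rw [hy2]; norm_num
  · exfalso
    have h1 : ‖x + m‖ = 1 / 2 := by rw [add_comm, nadd, hmn]; rw [h, hmn]; norm_num
    have h2 : ‖x ^ 2 + (32 * m * x + 320 * m ^ 2)‖ = 1 / 64 := by
      rw [nadd, hx2, h]; · norm_num
      rw [hx2, h]
      refine lt_of_le_of_lt (nle (c := 1 / 256) ?_ h320.le) (by norm_num)
      rw [h32, h]; norm_num
    rw [h1, h2] at hy2
    apply odd_val (y := y) 3
    rw [hy2]; norm_num
  · right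
    refine ⟨h, ?_⟩
    obtain ⟨z, rfl⟩ : ∃ z : ℚ_[2], x = 16 * z := ⟨x / 16, by field_simp⟩
    obtain ⟨w, hw⟩ : ∃ w : ℚ_[2], (m : ℚ_[2]) = 2 * w := ⟨m / 2, by field_simp⟩
    have hz : ‖z‖ = 1 := by
      rw [norm_mul, n16] at h; linarith
    have hw1 : ‖w‖ = 1 := by
      rw [hw, norm_mul, n2] at hmn; linarith
    obtain ⟨s, hs⟩ : ∃ s : ℚ_[2], 2 * s = z ^ 2 + 4 * w * z + 5 * w ^ 2 :=
      ⟨(z ^ 2 + 4 * w * z + 5 * w ^ 2) / 2, by field_simp⟩
    obtain ⟨u, hu⟩ : ∃ u : ℚ_[2], y = 32 * u := ⟨y / 32, by field_simp⟩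
    have e1 : u ^ 2 = (8 * z + w) * s := by
      have : (1024 : ℚ_[2]) * (u ^ 2 - (8 * z + w) * s) = 0 := by
        rw [hu, hw] at he
        linear_combination he - 512 * (8 * z + w) * hs
      have := (mul_eq_zero.1 this).resolve_left (by norm_num)
      linear_combination this
    have hwz : ‖w * z‖ = 1 := by rw [norm_mul, hw1, hz, mul_one]
    have e2 : ‖s - 1‖ ≤ 1 / 4 := by
      have e : 2 * (s - 1) = (z ^ 2 - 1) + 4 * (w * z - 1) + 5 * (w ^ 2 - 1) + 8 := by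
        linear_combination hs
      have e3 : ‖2 * (s - 1)‖ ≤ 1 / 8 := by
        rw [e]
        refine nle (nle (nle (sq_unit hz) ?_) ?_) n8.le
        · rw [norm_mul, n4]
          have := unit_sub_one hwz
          linarith
        · rw [norm_mul, n5, one_mul]
          exact sq_unit hw1
      rw [norm_mul, n2] at e3
      linarith
    have hs1 : ‖s‖ = 1 := by
      have e : s = 1 + (s - 1) := by ring
      rw [e, nadd, norm_one]
      rw [norm_one]; linarith
    have h8z : ‖8 * z + w‖ = 1 := by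
      rw [add_comm, nadd, hw1]
      rw [hw1, norm_mul, n8, hz]; norm_num
    have hu1 : ‖u‖ = 1 := by
      have : ‖u‖ ^ 2 = 1 ^ 2 := by rw [← norm_pow, e1, norm_mul, h8z, hs1]; norm_num
      exact (pow_left_inj₀ (norm_nonneg _) (by norm_num) two_ne_zero).1 this
    have e4 : w - 1 = (u ^ 2 - 1) - 8 * (z * s) - w * (s - 1) := by
      rw [e1]; ring
    have e5 : ‖w - 1‖ ≤ 1 / 4 := by
      rw [e4]
      refine nle' (nle' ?_ ?_) ?_
      · have := sq_unit hu1; linarith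
      · rw [norm_mul, norm_mul, n8, hz, hs1]; norm_num
      · rw [norm_mul, hw1, one_mul]; exact e2
    have e6 : ‖((m - 2 : ℤ) : ℚ_[2])‖ ≤ (1 / 2) ^ 3 := by
      push_cast
      rw [hw]
      have : (2 * w - 2 : ℚ_[2]) = 2 * (w - 1) := by ring
      rw [this, norm_mul, n2]
      norm_num
      linarith
    have e7 := dvd_of 3 e6
    omega
  · exfalso
    have h1 : ‖x + m‖ = 1 / 2 := by rw [add_comm, nadd, hmn]; rw [h, hmn]; norm_num
    have h2 : ‖x ^ 2 + (32 * m * x + 320 * m ^ 2)‖ = 1 / 256 := by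
      rw [← add_assoc, add_comm, nadd, h320]
      rw [h320]
      refine lt_of_le_of_lt (nle (c := 1 / 1024) ?_ ?_) (by norm_num)
      · rw [hx2, h]; norm_num
      · rw [h32, h]; norm_num
    rw [h1, h2] at hy2
    apply odd_val (y := y) 4
    rw [hy2]; norm_num
  · exfalso
    have hx0 := norm_nonneg x
    have h1 : ‖x + m‖ = 1 / 2 := by rw [add_comm, nadd, hmn]; rw [hmn]; linarith
    have h2 : ‖x ^ 2 + (32 * m * x + 320 * m ^ 2)‖ = 1 / 256 := by
      rw [← add_assoc, add_comm, nadd, h320]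
      rw [h320]
      refine lt_of_le_of_lt (nle (c := 1 / 1024) ?_ ?_) (by norm_num)
      · rw [hx2]; nlinarith
      · rw [h32]; linarith
    rw [h1, h2] at hy2
    apply odd_val (y := y) 4
    rw [hy2]; norm_num

theorem ns0 (hm : m % 4 = 2 ∨ m % 4 = 3) : (EF m).toAffine.Nonsingular (-m) 0 := by
  have hm0 : m ≠ 0 := by rintro rfl; norm_num at hm
  exact nsF hm0 (by ring)

theorem TT (g : (EF m).toAffine.Nonsingular (-m) 0) :
    (Affine.Point.some (-m) 0 g : (EF m).toAffine.Point) + .some (-m) 0 g = 0 := by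
  apply Affine.Point.add_of_Y_eq rfl
  rw [negYF]; ring

/-- a point with `v(x) = 1` -/
theorem k1T (hm : m % 4 = 2) (g : (EF m).toAffine.Nonsingular (-m) 0) {x y : ℚ_[2]}
    (hn : (EF m).toAffine.Nonsingular x y) (hx : ‖x‖ = 1 / 2) :
    (Affine.Point.some x y hn : (EF m).toAffine.Point) + .some (-m) 0 g ∈ E0 (F m) 2 := by
  have hmn := norm_even hm
  by_cases h : x + m = 0
  · have h1 : x = -m := by linear_combination h
    subst h1
    have he := eqF.1 hn.1
    have hy : y = 0 := by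
      have : y ^ 2 = 0 := by rw [he]; ring
      exact pow_eq_zero_iff two_ne_zero |>.1 this
    subst hy
    rw [TT g]
    exact AddSubgroup.zero_mem _
  · obtain ⟨X, Y, hN, h1, h2⟩ := addT g hn h
    rw [h1, memF]
    have h3 : ‖X + m‖ * ‖x + m‖ = 1 / 4 := by
      rw [← norm_mul, h2, norm_mul, norm_pow, n289, hmn]; norm_num
    have h4 : ‖x + m‖ ≤ 1 / 4 := by
      have u1 : ‖x / 2‖ = 1 := by rw [norm_div, hx, n2]; norm_num
      have u2 : ‖(m : ℚ_[2]) / 2‖ = 1 := by rw [norm_div, hmn, n2]; norm_num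
      have e : x + m = 2 * ((x / 2 - 1) + (m / 2 - 1) + 2) := by ring
      rw [e, norm_mul, n2]
      have := nle (nle (unit_sub_one u1) (unit_sub_one u2)) n2.le
      linarith
    have h5 : 1 ≤ ‖X + m‖ := by
      by_contra hc
      have := not_le.1 hc
      nlinarith [norm_nonneg (x + m), norm_nonneg (X + m)]
    have e : X = (X + m) - m := by ring
    rw [e, nsub]
    · exact h5
    · rw [hmn]; linarith

theorem tamE (hm : m % 4 = 2) (h8 : m % 8 ≠ 2) : (E0 (F m) 2).index = 2 := by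
  have g := ns0 (Or.inl hm)
  have hmn := norm_even hm
  have key : ∀ P : (EF m).toAffine.Point, P ∉ E0 (F m) 2 → P + .some (-m) 0 g ∈ E0 (F m) 2 := by
    intro P hP
    rcases P with _ | ⟨x, y, hn⟩
    · exact absurd (AddSubgroup.zero_mem _) hP
    · rw [memF, not_le] at hP
      rcases clsE hm (eqF.1 hn.1) hP with h | ⟨-, h⟩
      · exact k1T hm g hn h
      · exact absurd h h8
  refine index_two _ (.some (-m) 0 g : (EF m).toAffine.Point) ?_ ?_
  · rw [memF, norm_neg, hmn]; norm_num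
  · intro P Q hP hQ
    have h1 := (E0 (F m) 2).add_mem (key P hP) (key Q hQ)
    have h2 := TT g
    have e : P + Q = (P + .some (-m) 0 g) + (Q + .some (-m) 0 g) := by
      have e1 : ∀ a b t : (EF m).toAffine.Point, (a + t) + (b + t) = (a + b) + (t + t) := by
        intro a b t; abel
      rw [e1, h2, add_zero]
    rw [e]
    exact h1

/-- the double of a point with `v(x) = 4` -/
theorem dbl4 (hm : m % 4 = 2) {x y : ℚ_[2]} (hn : (EF m).toAffine.Nonsingular x y)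
    (hx : ‖x‖ = 1 / 16) :
    (Affine.Point.some x y hn : (EF m).toAffine.Point) + .some x y hn ∈ E0 (F m) 2 := by
  have hmn := norm_even hm
  have he := eqF.1 hn.1
  have c1 : ‖x + m‖ = 1 / 2 := by rw [add_comm, nadd, hmn]; rw [hx, hmn]; norm_num
  have h16 : ‖(16 : ℚ_[2]) * m‖ = 1 / 32 := by rw [norm_mul, n16, hmn]; norm_num
  have c2 : ‖x - 16 * m‖ = 1 / 16 := by rw [nsub, hx]; rw [h16, hx]; norm_num
  have h18 : ‖(18 : ℚ_[2]) * m‖ = 1 / 4 := by
    have e : (18 : ℚ_[2]) * m = 2 * m + 16 * m := by ring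
    rw [e, nadd, norm_mul, n2, hmn]
    · norm_num
    · rw [h16, norm_mul, n2, hmn]; norm_num
  have c3 : ‖x + 18 * m‖ = 1 / 4 := by rw [add_comm, nadd, h18]; rw [h18, hx]; norm_num
  -- `‖y‖ = 2⁻⁵`
  have c4 : ‖x ^ 2 + 32 * m * x + 320 * m ^ 2‖ = 1 / 512 := by
    obtain ⟨z, rfl⟩ : ∃ z : ℚ_[2], x = 16 * z := ⟨x / 16, by field_simp⟩
    obtain ⟨w, hw⟩ : ∃ w : ℚ_[2], (m : ℚ_[2]) = 2 * w := ⟨m / 2, by field_simp⟩
    have hz : ‖z‖ = 1 := by
      rw [norm_mul, n16] at hx; linarith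
    have hw1 : ‖w‖ = 1 := by
      rw [hw, norm_mul, n2] at hmn; linarith
    have hwz : ‖w * z‖ = 1 := by rw [norm_mul, hw1, hz, mul_one]
    have e : (16 * z) ^ 2 + 32 * m * (16 * z) + 320 * m ^ 2 = 16 ^ 2 * (2 + ((z ^ 2 - 1) +
        4 * (w * z - 1) + 5 * (w ^ 2 - 1) + 8)) := by
      rw [hw]; ring
    have e3 : ‖(z ^ 2 - 1) + 4 * (w * z - 1) + 5 * (w ^ 2 - 1) + 8‖ ≤ 1 / 8 := by
      refine nle (nle (nle (sq_unit hz) ?_) ?_) n8.le
      · rw [norm_mul, n4]
        have := unit_sub_one hwz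
        linarith
      · rw [norm_mul, n5, one_mul]
        exact sq_unit hw1
    rw [e, norm_mul, nadd, norm_pow, n16, n2]
    · norm_num
    · rw [n2]; linarith
  have c5 : ‖y‖ = 1 / 32 := by
    have : ‖y‖ ^ 2 = (1 / 32) ^ 2 := by
      rw [← norm_pow, he, norm_mul, c1, c4]; norm_num
    exact (pow_left_inj₀ (norm_nonneg _) (by norm_num) two_ne_zero).1 this
  rcases sumF hn hn with h | ⟨l, c, X, Y, hN, h1, h2, h3, -, -, -, h4⟩
  · rw [h]; exact AddSubgroup.zero_mem _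
  · rw [h1, memF]
    have hy0 : y ≠ 0 := by rw [← norm_pos_iff, c5]; norm_num
    have hyn : y ≠ (EF m).toAffine.negY x y := by
      rw [negYF]
      intro h5
      apply hy0
      have : (2 : ℚ_[2]) * y = 0 := by linear_combination h5
      exact (mul_eq_zero.1 this).resolve_left two_ne_zero
    have h5 : l = (3 * x ^ 2 + 66 * m * x + 352 * m ^ 2) / (2 * y) := by
      rw [h2, Affine.slope_of_Y_ne rfl hyn, negYF, EF1, EF2, EF4]
      congr 1 <;> ring
    have h6 : l * (2 * y) = 3 * x ^ 2 + 66 * m * x + 352 * m ^ 2 := by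
      rw [h5, div_mul_cancel₀]
      exact mul_ne_zero two_ne_zero hy0
    have h7 : (c - l * m) * (2 * y) = -(x + m) * ((x - 16 * m) * (x + 18 * m)) := by
      have : c = y - l * x := by rw [h3]; ring
      rw [this]
      linear_combination 2 * he - (x + m) * h6
    have h8 : ‖c - l * m‖ * (1 / 64) = 1 / 128 := by
      have := congrArg norm h7
      rw [norm_mul, norm_mul, norm_mul, norm_mul, norm_neg, n2, c5, c1, c2, c3] at this
      norm_num at this ⊢
      linarith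
    have h9 : ‖X + m‖ = 1 := by
      have := congrArg norm h4
      rw [norm_mul, norm_mul, norm_pow, c1] at this
      have h10 : ‖c - l * m‖ = 1 / 2 := by linarith
      rw [h10] at this
      linarith
    have e : X = (X + m) - m := by ring
    rw [e, nsub, h9]
    rw [h9, hmn]; norm_num

theorem tamE4 (h8 : m % 8 = 2) : (E0 (F m) 2).index = 4 := by
  have hm : m % 4 = 2 := by omega
  have hm0 : m ≠ 0 := by rintro rfl; norm_num at hm
  have g := ns0 (Or.inl hm)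
  have hmn := norm_even hm
  -- the second point
  obtain ⟨xB, yB, hxB, heB⟩ : ∃ x y : ℚ_[2], ‖x‖ = 1 / 16 ∧
      y ^ 2 = (x + m) * (x ^ 2 + 32 * m * x + 320 * m ^ 2) := by
    obtain ⟨t, rfl⟩ : ∃ t : ℤ, m = 8 * t + 2 := ⟨m / 8, by omega⟩
    obtain ⟨s, hs⟩ := Pool.Agent.H468.X15.sq_of_mod8
      (u := (-7 - 60 * t) * (8 * t ^ 2 + 4 * t + 1)) (by
        have e : (-7 - 60 * t) * (8 * t ^ 2 + 4 * t + 1) =
            8 * (-60 * t ^ 3 - 37 * t ^ 2 - 11 * t - 1) + 1 := by ring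
        rw [e]
        omega)
    refine ⟨16 * (1 - ((8 * t + 2 : ℤ) : ℚ_[2])), 32 * s, ?_, ?_⟩
    · rw [norm_mul, n16, nsub, norm_one, mul_one]
      rw [hmn, norm_one]; norm_num
    · push_cast at hs ⊢
      linear_combination -1024 * hs
  have gB := nsF hm0 heB
  have cB : ‖xB + m‖ = 1 / 2 := by rw [add_comm, nadd, hmn]; rw [hxB, hmn]; norm_num
  refine index_four (E0 (F m) 2) (.some (-m) 0 g : (EF m).toAffine.Point)
    (.some xB yB gB : (EF m).toAffine.Point) ?_ ?_ ?_ ?_ ?_ ?_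
  · rw [TT g]; exact AddSubgroup.zero_mem _
  · exact dbl4 hm gB hxB
  · rw [memF, norm_neg, hmn]; norm_num
  · rw [memF, hxB]; norm_num
  · rw [add_comm]
    have hne : xB + m ≠ 0 := by rw [← norm_pos_iff, cB]; norm_num
    obtain ⟨X, Y, hN, h1, h2⟩ := addT g gB hne
    rw [h1, memF, not_le]
    have h3 : ‖X + m‖ = 1 / 2 := by
      have := congrArg norm h2
      rw [norm_mul, norm_mul, norm_pow, n289, hmn, cB] at this
      linarith
    have e : X = (X + m) - m := by ring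
    rw [e]
    refine lt_of_le_of_lt (nle' h3.le hmn.le) (by norm_num)
  · intro P
    rcases P with _ | ⟨x, y, hn⟩
    · left; exact AddSubgroup.zero_mem _
    rcases le_or_gt 1 ‖x‖ with hx | hx
    · left; exact (memF hn).2 hx
    right
    rcases clsE hm (eqF.1 hn.1) hx with h | ⟨h, -⟩
    · left; exact k1T hm g hn h
    right
    rcases sumF hn gB with h0 | ⟨l, c, X, Y, hN, h1, -, -, -, -, -, h4⟩
    · left; rw [h0]; exact AddSubgroup.zero_mem _
    rcases le_or_gt 1 ‖X‖ with hX | hX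
    · left; rw [h1, memF]; exact hX
    right
    have e : ∀ a b t : (EF m).toAffine.Point, a + (t + b) = (a + b) + t := by
      intro a b t; abel
    rw [e, h1]
    rcases clsE hm (eqF.1 hN.1) hX with h5 | ⟨h5, -⟩
    · exact k1T hm g hN h5
    · exfalso
      have c1 : ‖x + m‖ = 1 / 2 := by rw [add_comm, nadd, hmn]; rw [h, hmn]; norm_num
      have c2 : ‖X + m‖ = 1 / 2 := by rw [add_comm, nadd, hmn]; rw [h5, hmn]; norm_num
      have := congrArg norm h4
      rw [norm_mul, norm_mul, norm_pow, c1, c2, cB] at this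
      apply odd_val (y := c - l * m) 1
      rw [← this]; norm_num

end even

/-! ### `m` odd -/

section odd

variable {m : ℤ}

theorem norm_odd (hm : m % 4 = 3) : ‖(m : ℚ_[2])‖ = 1 := by
  by_contra h5
  have h6 : ‖(m : ℚ_[2])‖ < 1 := lt_of_le_of_ne (nm_le m) h5
  have h7 := (Padic.norm_intCast_lt_one_iff (p := 2) (k := m)).1 h6
  push_cast at h7
  omega

theorem odd_ne (hm : m % 4 = 3) : ¬ ‖(m : ℚ_[2]) - 1‖ ≤ 1 / 4 := by
  intro h
  have e6 : ‖((m - 1 : ℤ) : ℚ_[2])‖ ≤ (1 / 2) ^ 2 := by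
    push_cast
    norm_num
    linarith
  have e7 := dvd_of 2 e6
  omega

/-- the points with singular reduction -/
theorem clsO (hm : m % 4 = 3) {x y : ℚ_[2]}
    (he : y ^ 2 = (x + m) * (x ^ 2 + 32 * m * x + 320 * m ^ 2)) (hx : ‖x‖ < 1) :
    ‖x‖ = 1 / 2 := by
  have hmn := norm_odd hm
  have hxm : ‖x + m‖ = 1 := by rw [add_comm, nadd, hmn]; rw [hmn]; exact hx
  have hc2 := sq_unit hmn
  -- a criterion
  have crit : ∀ g u : ℚ_[2], u ^ 2 = (x + m) * g → ‖g - 1‖ ≤ 1 / 4 → ‖x‖ ≤ 1 / 4 → False := by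
    intro g u hu hg hx4
    apply odd_ne hm
    have hg1 : ‖g‖ = 1 := by
      have e : g = 1 + (g - 1) := by ring
      rw [e, nadd, norm_one]
      rw [norm_one]; linarith
    have hu1 : ‖u‖ = 1 := by
      have : ‖u‖ ^ 2 = 1 ^ 2 := by rw [← norm_pow, hu, norm_mul, hxm, hg1]; norm_num
      exact (pow_left_inj₀ (norm_nonneg _) (by norm_num) two_ne_zero).1 this
    have e : (m : ℚ_[2]) - 1 = (u ^ 2 - 1) - (x + m) * (g - 1) - x := by
      rw [hu]; ring
    rw [e]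
    refine nle' (nle' ?_ ?_) hx4
    · have := sq_unit hu1; linarith
    · rw [norm_mul, hxm, one_mul]; exact hg
  -- small `x`
  have small : ‖x‖ ≤ 1 / 16 → False := by
    intro h
    obtain ⟨z, rfl⟩ : ∃ z : ℚ_[2], x = 8 * z := ⟨x / 8, by field_simp⟩
    obtain ⟨u, hu⟩ : ∃ u : ℚ_[2], y = 8 * u := ⟨y / 8, by field_simp⟩
    have hz : ‖z‖ ≤ 1 / 2 := by
      rw [norm_mul, n8] at h; linarith
    have hz0 := norm_nonneg z
    refine crit (z ^ 2 + 4 * (m * z) + 5 * m ^ 2) u ?_ ?_ (by linarith)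
    · have : (64 : ℚ_[2]) * (u ^ 2 - (8 * z + m) * (z ^ 2 + 4 * (m * z) + 5 * m ^ 2)) = 0 := by
        rw [hu] at he
        linear_combination he
      have := (mul_eq_zero.1 this).resolve_left (by norm_num)
      linear_combination this
    · have e : z ^ 2 + 4 * (m * z) + 5 * (m : ℚ_[2]) ^ 2 - 1 =
          z ^ 2 + 4 * (m * z) + 5 * (m ^ 2 - 1) + 4 := by ring
      rw [e]
      refine nle (nle (nle ?_ ?_) ?_) n4.le
      · rw [norm_pow]; nlinarith
      · rw [norm_mul, norm_mul, n4, hmn]; linarith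
      · rw [norm_mul, n5, one_mul]; linarith
  rcases cases5 hx with h | h | h | h | h | h
  · exact h
  · exfalso
    obtain ⟨z, rfl⟩ : ∃ z : ℚ_[2], x = 4 * z := ⟨x / 4, by field_simp⟩
    obtain ⟨u, hu⟩ : ∃ u : ℚ_[2], y = 4 * u := ⟨y / 4, by field_simp⟩
    have hz : ‖z‖ = 1 := by
      rw [norm_mul, n4] at h; linarith
    refine crit (z ^ 2 + 4 * (2 * m * z + 5 * m ^ 2)) u ?_ ?_ h.le
    · have : (16 : ℚ_[2]) * (u ^ 2 - (4 * z + m) * (z ^ 2 + 4 * (2 * m * z + 5 * m ^ 2))) = 0 := by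
        rw [hu] at he
        linear_combination he
      have := (mul_eq_zero.1 this).resolve_left (by norm_num)
      linear_combination this
    · have e : z ^ 2 + 4 * (2 * m * z + 5 * (m : ℚ_[2]) ^ 2) - 1 =
          (z ^ 2 - 1) + 4 * (2 * m * z + 5 * m ^ 2) := by ring
      rw [e]
      refine nle ?_ ?_
      · have := sq_unit hz; linarith
      · rw [norm_mul, n4]
        have : ‖2 * m * z + 5 * (m : ℚ_[2]) ^ 2‖ ≤ 1 := by
          refine nle ?_ ?_
          · rw [norm_mul, norm_mul, n2, hmn, hz]; norm_num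
          · rw [norm_mul, n5, norm_pow, hmn]; norm_num
        linarith
  · exfalso
    obtain ⟨z, rfl⟩ : ∃ z : ℚ_[2], x = 8 * z := ⟨x / 8, by field_simp⟩
    have hz : ‖z‖ = 1 := by
      rw [norm_mul, n8] at h; linarith
    have hmz : ‖m * z‖ = 1 := by rw [norm_mul, hmn, hz, mul_one]
    have e : (8 * z) ^ 2 + 32 * m * (8 * z) + 320 * (m : ℚ_[2]) ^ 2 = 64 * (2 + ((z ^ 2 - 1) +
        4 * (m * z - 1) + 5 * (m ^ 2 - 1) + 8)) := by ring
    have e3 : ‖(z ^ 2 - 1) + 4 * (m * z - 1) + 5 * ((m : ℚ_[2]) ^ 2 - 1) + 8‖ ≤ 1 / 8 := by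
      refine nle (nle (nle (sq_unit hz) ?_) ?_) n8.le
      · rw [norm_mul, n4]
        have := unit_sub_one hmz
        linarith
      · rw [norm_mul, n5, one_mul]
        exact hc2
    have n64 : ‖(64 : ℚ_[2])‖ = 1 / 64 := by
      have : (64 : ℚ_[2]) = 2 ^ 6 := by norm_num
      rw [this, norm_pow, n2]; norm_num
    apply odd_val (y := y) 3
    rw [← norm_pow, he, norm_mul, hxm, e, norm_mul, nadd, n64, n2]
    · norm_num
    · rw [n2]; linarith
  · exact (small h.le).elim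
  · exact (small (by rw [h]; norm_num)).elim
  · exact (small (by linarith)).elim

theorem tamO (hm : m % 4 = 3) : (E0 (F m) 2).index = 2 := by
  have hm0 : m ≠ 0 := by rintro rfl; norm_num at hm
  have hmn := norm_odd hm
  obtain ⟨xQ, yQ, hxQ, heQ⟩ : ∃ x y : ℚ_[2], ‖x‖ = 1 / 2 ∧
      y ^ 2 = (x + m) * (x ^ 2 + 32 * m * x + 320 * m ^ 2) := by
    rcases (by omega : m % 8 = 3 ∨ m % 8 = 7) with h | h
    · obtain ⟨s, hs⟩ := Pool.Agent.H468.X15.sq_of_mod8
        (u := (m - 2) * (1 - 16 * m + 80 * m ^ 2)) (by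
        obtain ⟨k, rfl⟩ : ∃ k : ℤ, m = 8 * k + 3 := ⟨m / 8, by omega⟩
        have e : (8 * k + 3 - 2) * (1 - 16 * (8 * k + 3) + 80 * (8 * k + 3) ^ 2) =
            8 * ((8 * k + 1) * (-2 * (8 * k + 3) + 10 * (8 * k + 3) ^ 2) + k) + 1 := by
          ring
        rw [e]
        omega)
      refine ⟨-2, 2 * s, by rw [norm_neg, n2], ?_⟩
      push_cast at hs
      linear_combination -4 * hs
    · obtain ⟨s, hs⟩ := Pool.Agent.H468.X15.sq_of_mod8
        (u := (m + 2) * (1 + 16 * m + 80 * m ^ 2)) (by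
        obtain ⟨k, rfl⟩ : ∃ k : ℤ, m = 8 * k + 7 := ⟨m / 8, by omega⟩
        have e : (8 * k + 7 + 2) * (1 + 16 * (8 * k + 7) + 80 * (8 * k + 7) ^ 2) =
            8 * ((8 * k + 9) * (2 * (8 * k + 7) + 10 * (8 * k + 7) ^ 2) + (k + 1)) + 1 := by
          ring
        rw [e]
        omega)
      refine ⟨2, 2 * s, n2, ?_⟩
      push_cast at hs
      linear_combination -4 * hs
  have gQ := nsF hm0 heQ
  refine index_two _ (.some xQ yQ gQ : (EF m).toAffine.Point) ?_ ?_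
  · rw [memF, hxQ]; norm_num
  · intro P Q hP hQ
    rcases P with _ | ⟨x, y, hn⟩
    · exact absurd (AddSubgroup.zero_mem _) hP
    rcases Q with _ | ⟨x', y', hn'⟩
    · exact absurd (AddSubgroup.zero_mem _) hQ
    rw [memF, not_le] at hP hQ
    have h1 := clsO hm (eqF.1 hn.1) hP
    have h2 := clsO hm (eqF.1 hn'.1) hQ
    rcases sumF hn hn' with h0 | ⟨l, c, X, Y, hN, h3, -, -, -, -, h4, -⟩
    · rw [h0]; exact AddSubgroup.zero_mem _
    · rw [h3, memF]
      by_contra hX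
      have h5 := clsO hm (eqF.1 hN.1) (not_le.1 hX)
      apply odd_val (y := c) 1
      have e : c ^ 2 = x * x' * X + 320 * m ^ 3 := by rw [h4]; ring
      have h6 : ‖x * x' * X‖ = 1 / 8 := by
        rw [norm_mul, norm_mul, h1, h2, h5]; norm_num
      rw [← norm_pow, e, nadd, h6]
      · norm_num
      · rw [h6, norm_mul, norm_pow, hmn, n320]; norm_num

end odd

theorem WJ0 (m : ℤ) (hm : m % 4 = 2 ∨ m % 4 = 3) : WJ 0 m = F m := by
  unfold WJ
  rw [if_neg (by omega)]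
  show (⟨0, 33 * m, 0, 16 * 22 * m ^ 2, 64 * 5 * m ^ 3⟩ : WeierstrassCurve ℤ) = _
  norm_num

theorem t_ITD0 : S_ITD0 := by
  intro m _ hm
  rw [WJ0 m hm]
  unfold tam
  split_ifs with h
  · exact tamE4 h
  · rcases hm with h1 | h1
    · exact tamE h1 h
    · exact tamO h1

end Pool.Agent.H286.I17
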